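import Pool.Graph.R_pool_sql_team_seeded_63374d34.N300.UN.Basic

/-!
# Uniqueness of maps `C([0,1]^n) → A` by the trace: the interface

Target (MP_401a3a_an, Q2): `A` unital simple of stable rank one with strict comparison and a unique
2-quasitracial state `τ`, which is a trace; `φ, ψ : C([0,1]^n) → A` injective unital with
`τ ∘ φ = τ ∘ ψ`. Then `φ` and `ψ` are approximately unitarily equivalent.

`S_X` is a statement, its proof `s_X : S_X` is delivered in `Pool/Agent/H<n>/...`.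
Notation of the library (module `N300.UN.Stubs`, `H923R2.FP`, `H923R2.FZ`): `Cube n = Fin n → [0,1]`,
`co l` the `l`-th coordinate as a complex function, `kp e r` the cutoff (`1` for `t ≤ r e`, `0` for
`t ≥ (r+1) e`), `FTS τ` faithful tracial state, `PC x`: self-adjoint with spectrum in `[0,1]`,
`PED A`: unitary polar decomposition (for `x`, `ε` there is a unitary `w` with
`w G(x* x) = x (G(t)/√t)(x* x)` for all `G` vanishing for `t ≤ ε`), `site m σ a b i` the tuples on the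
way from `a` to `(1-σ) a`, `(1-σ) b` and back to `b`.
-/

set_option autoImplicit false

open scoped ComplexConjugate

noncomputable section

namespace Pool.Agent.H252.UQ

open Pool.Agent.H923R2.FP Pool.Agent.H923R2.FZ Pool.Agent.N300.UN
open Filter Topology

/-! ## Definitions of the final statement -/

/-- The axioms of a quasitrace on a unital *-algebra: `0 ≤ τ(x* x) = τ(x x*)`,
`τ(a + i b) = τ(a) + i τ(b)` for self-adjoint `a`, `b`, and `τ` is linear on commutative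
*-subalgebras (two elements lie in a common commutative *-subalgebra if and only if they are normal
and each commutes with the other and its adjoint). -/
structure IsQuasitrace {R : Type} [Ring R] [StarRing R] [Algebra ℂ R] (τ : R → ℂ) : Prop where
  nonneg : ∀ x : R, 0 ≤ (τ (star x * x)).re ∧ (τ (star x * x)).im = 0
  comm : ∀ x : R, τ (star x * x) = τ (x * star x)
  add_I : ∀ a b : R, IsSelfAdjoint a → IsSelfAdjoint b →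
    τ (a + Complex.I • b) = τ a + Complex.I * τ b
  linear : ∀ (c : ℂ) (x y : R), IsStarNormal x → IsStarNormal y → Commute x y →
    Commute x (star y) → τ (c • x + y) = c * τ x + τ y

/-- A 2-quasitracial state on `A`: a normalised quasitrace which extends to a quasitrace on
`M_2(A)`. -/
structure TwoQuasitracialState {A : Type} [CStarAlgebra A] (τ : A → ℂ) : Prop where
  quasitrace : IsQuasitrace τ
  one : τ 1 = 1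
  ext : ∃ τ₂ : Matrix (Fin 2) (Fin 2) A → ℂ, IsQuasitrace τ₂ ∧ ∀ a, τ₂ !![a, 0; 0, 0] = τ a

/-- positive elements -/
def IsPos {A : Type} [CStarAlgebra A] (a : A) : Prop := ∃ x, a = star x * x

/-- The limit `d_τ(a) = lim τ(a^{1/m})` exists and equals `d`; here `a^{1/m}` is the positive
`m`-th root of the positive element `a`. -/
def HasDim {A : Type} [CStarAlgebra A] (τ : A → ℂ) (a : A) (d : ℝ) : Prop :=
  ∃ r : ℕ → A, (∀ m, IsPos (r m) ∧ r m ^ (m + 1) = a) ∧ Tendsto (fun m => (τ (r m)).re) atTop (𝓝 d)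

/-- Cuntz subequivalence `a ≾ b`: `a` is the limit of elements `v b v*`. -/
def CuntzLE {A : Type} [CStarAlgebra A] (a b : A) : Prop :=
  ∀ ε : ℝ, 0 < ε → ∃ v : A, ‖v * b * star v - a‖ < ε

/-- Strict comparison for the positive elements of `A`: if `d_τ(a) < d_τ(b)` for all 2-quasitracial
states `τ`, then `a ≾ b`. -/
def StrictComparison (A : Type) [CStarAlgebra A] : Prop :=
  ∀ a b : A, IsPos a → IsPos b →
    (∀ τ : A → ℂ, TwoQuasitracialState τ → ∃ d e : ℝ, HasDim τ a d ∧ HasDim τ b e ∧ d < e) →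
    CuntzLE a b

/-- `A` is simple: the only closed two-sided ideals are `0` and `A`, and `A ≠ 0`. -/
def IsSimpleCStar (A : Type) [CStarAlgebra A] : Prop :=
  Nontrivial A ∧ ∀ I : TwoSidedIdeal A, IsClosed (I : Set A) → I = ⊥ ∨ I = ⊤

/-- `τ` is a tracial state. -/
structure IsTracialState {A : Type} [CStarAlgebra A] (τ : A →ₗ[ℂ] ℂ) : Prop where
  one : τ 1 = 1
  comm : ∀ x y, τ (x * y) = τ (y * x)
  pos : ∀ x, 0 ≤ (τ (star x * x)).re ∧ (τ (star x * x)).im = 0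

/-- `φ` and `ψ` are approximately unitarily equivalent. -/
def ApproxUnitarilyEquivalent {B A : Type} [CStarAlgebra B] [CStarAlgebra A]
    (φ ψ : B →⋆ₐ[ℂ] A) : Prop :=
  ∀ (F : Finset B) (ε : ℝ), 0 < ε → ∃ u : unitary A, ∀ b ∈ F,
    ‖(u : A) * φ b * star (u : A) - ψ b‖ < ε

/-! ## Working notions -/

/-- a real function as a complex function -/
def cr {X : Type} [TopologicalSpace X] (h : C(X, ℝ)) : C(X, ℂ) :=
  ⟨fun x => ((h x : ℝ) : ℂ), by fun_prop⟩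

@[simp] theorem cr_apply {X : Type} [TopologicalSpace X] (h : C(X, ℝ)) (x : X) :
    cr h x = ((h x : ℝ) : ℂ) := rfl

/-- Comparison by `τ`, in the form in which it is used: if `x e = x` for a positive contraction `e`
and `τ(e) < τ(y* y)`, `‖y‖ ≤ 1`, then `x* x` is a limit of elements `r* y* y r`. -/
def Cmp {A : Type} [CStarAlgebra A] (τ : A →ₗ[ℂ] ℂ) : Prop :=
  ∀ x y e : A, PC e → x * e = x → ‖y‖ ≤ 1 → (τ e).re < (τ (star y * y)).re →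
    ∀ ε : ℝ, 0 < ε → ∃ r : A, ‖star (y * r) * (y * r) - star x * x‖ < ε

/-! ## Statements -/

/-- **UCFC**: uniform continuity of the functional calculus.

PROOF. Weierstrass: a real polynomial `p` with `|p - G| ≤ ε/3` on `[-M, M]` (`M ≥ 0` unless the
statement is void). `‖cfc G a - cfc p a‖ ≤ ε/3` (the spectrum of `a` is in `[-M, M]`), the same for
`b`, and `‖p(a) - p(b)‖ ≤ C_p ‖a - b‖` as `a^k - b^k = ∑ a^i (a - b) b^(k-1-i)`. -/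
def S_UCFC : Prop := ∀ G : ℝ → ℝ, Continuous G → ∀ M ε : ℝ, 0 < ε → ∃ δ : ℝ, 0 < δ ∧
  ∀ (A : Type) [CStarAlgebra A] (a b : A), IsSelfAdjoint a → IsSelfAdjoint b → ‖a‖ ≤ M →
    ‖b‖ ≤ M → ‖a - b‖ ≤ δ → ‖cfc G a - cfc G b‖ ≤ ε

/-- **CFX**: functional calculus in `C(X)` and of its images.

PROOF. `StarAlgHomClass.map_cfc` for `χ`, and `cfc G (cr H) = cr (G ∘ H)` (apply the evaluations
`C(X, ℂ) → ℂ`, which are *-homomorphisms, and `cfc` in `ℂ`; or `ContinuousMap` lemmas). -/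
def S_CFX : Prop := ∀ (X : Type) [TopologicalSpace X] [CompactSpace X] (A : Type) [CStarAlgebra A]
  (χ : C(X, ℂ) →⋆ₐ[ℂ] A) (H : C(X, ℝ)) (G : C(ℝ, ℝ)), cfc G (χ (cr H)) = χ (cr (G.comp H))

/-- **CMP**: from strict comparison to `Cmp`.

PROOF. `a = x* x`, `b = y* y ≤ 1`. `d_τ(a)`: with `a' = a / (‖a‖ + 1)` (norm `< 1`) the roots
`a'^(1/(m+1))` increase with `m`; `a e = a` implies `a'^(1/(m+1)) e = a'^(1/(m+1))` (functions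
vanishing at `0` are limits of polynomials without constant term), so
`a'^(1/(m+1)) = e^(1/2) a'^(1/(m+1)) e^(1/2) ≤ e`, and `τ(a^(1/(m+1))) = (‖a‖+1)^(1/(m+1))
τ(a'^(1/(m+1)))` converges to a limit `≤ τ(e)`. For `b` (norm `≤ 1`): the roots increase, are `≥ b`
and `≤ 1`, so the limit exists and is `≥ τ(b)`. The hypothesis gives `‖v b v* - a‖ < ε`; `r = v*`.
(The library has ranks: `Pool.Graph.R_seed8.H327R4.Pure` `StRK`, `StCT`.) -/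
def S_CMP : Prop := ∀ (A : Type) [CStarAlgebra A] (τ : A →ₗ[ℂ] ℂ), FTS τ →
  (∀ a b : A, IsPos a → IsPos b → (∃ d e : ℝ, HasDim (fun x => τ x) a d ∧
    HasDim (fun x => τ x) b e ∧ d < e) → CuntzLE a b) → Cmp τ

/-- **FAI**: tracial states on simple C*-algebras are faithful.

PROOF. `{x | τ(x* x) = 0}` is a closed two-sided ideal (Cauchy-Schwarz and the trace property), not
containing `1`. Positivity gives `τ(x*) = conj τ(x)` and `|τ(x)| ≤ ‖x‖`. -/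
def S_FAI : Prop := ∀ (A : Type) [CStarAlgebra A] (τ : A →ₗ[ℂ] ℂ), IsSimpleCStar A →
  IsTracialState τ → FTS τ

/-- **BUMP**: small disjoint bumps of almost full measure, with room around them.

PROOF. Let `ω < 1/4`. Let `μ'` be the finite Borel measure of the positive functional `μ` (Riesz:
`RealRMK.rieszMeasure`, `RealRMK.integral_rieszMeasure`). Cover the cube by finitely many balls of
radius `ω/4`, make them disjoint: measurable sets `E_j ⊆ B(p_j, ω/4)`. By inner regularity there are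
compact `K_j ⊆ E_j` with `μ'(E_j \ K_j)` so small that `μ'(complement of ⋃ K_j) ≤ κ`; drop the empty
`K_j`. The `K_j` are disjoint compact sets; let `δ > 0`, `δ ≤ ω/4` be smaller than half of their
distances. With `d_j(x) = dist(x, K_j)` (`Metric.infDist`): `h_j = (1 - 4 d_j/δ)₊`,
`h1_j = min 1 (2 - 4 d_j/δ)₊`, `h2_j = min 1 (4 - 4 d_j/δ)₊`: `h1_j = 1` where `h_j ≠ 0`
(`d_j < δ/4`), `h2_j = 1` where `h1_j ≠ 0` (`d_j < δ/2`), and `h2_j = 0` where `d_j ≥ δ`. As the cube is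
connected (`n ≥ 1`) of diameter `1 > ω`, `d_j` takes the value `5δ/8`; there `h1_j = 0 < h2_j`. As
`h1_j ≤ h2_j²` and `μ` is faithful, `μ(h1_j) < μ(h2_j²)`. A function `u` with values in `[0,1]` which
vanishes where `∑ h_j² ≥ 1` vanishes on `⋃ K_j`, so `μ(u) ≤ κ`. -/
def S_BUMP : Prop := ∀ n : ℕ, 1 ≤ n → ∀ μ : C(Cube n, ℝ) →ₗ[ℝ] ℝ,
  (∀ f : C(Cube n, ℝ), (∀ x, 0 ≤ f x) → 0 ≤ μ f) →
  (∀ f : C(Cube n, ℝ), (∀ x, 0 ≤ f x) → μ f = 0 → f = 0) → ∀ ω κ : ℝ, 0 < ω → 0 < κ →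
  ∃ (N : ℕ) (p : Fin N → Cube n) (h h1 h2 : Fin N → C(Cube n, ℝ)),
    (∀ j x, 0 ≤ h j x ∧ h j x ≤ 1) ∧ (∀ j x, 0 ≤ h1 j x ∧ h1 j x ≤ 1) ∧
    (∀ j x, 0 ≤ h2 j x ∧ h2 j x ≤ 1) ∧ (∀ j x, h j x ≠ 0 → h1 j x = 1) ∧
    (∀ j x, h1 j x ≠ 0 → h2 j x = 1) ∧ (∀ j, μ (h1 j) < μ (h2 j * h2 j)) ∧
    (∀ i j, i ≠ j → ∀ x, h2 i x = 0 ∨ h2 j x = 0) ∧ (∀ j x, h2 j x ≠ 0 → dist x (p j) < ω) ∧
    ∀ u : C(Cube n, ℝ), (∀ x, 0 ≤ u x ∧ u x ≤ 1) → (∀ x, u x ≠ 0 → ∑ j, h j x ^ 2 < 1) → μ u ≤ κ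

/-- **PTS**: disjoint bumps near given points of the cube.

PROOF. Choose pairwise distinct points `z_i` with `dist (z_i) (y_i) < ω/2` (every ball of the cube is
infinite, as `n ≥ 1`), `d > 0` smaller than `ω/2` and than half of all distances of the `z_i`, and
`g_i(x) = (1 - dist x z_i / d)₊`. -/
def S_PTS : Prop := ∀ n : ℕ, 1 ≤ n → ∀ (ι : Type) [Fintype ι] (y : ι → Cube n) (ω : ℝ), 0 < ω →
  ∃ g : ι → C(Cube n, ℝ), (∀ i x, 0 ≤ g i x ∧ g i x ≤ 1) ∧ (∀ i, g i ≠ 0) ∧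
    (∀ i j, i ≠ j → ∀ x, g i x = 0 ∨ g j x = 0) ∧ ∀ i x, g i x ≠ 0 → dist x (y i) < ω

/-- **COLN**: the elements `V_c = ψ(u_c) r_c` with disjoint `u_c` have orthogonal ranges.

PROOF. `V_c* V_c' = r_c* ψ(u_c u_c') r_c' = 0` for `c ≠ c'`. Put `W_c = (ψ(f) - b_c) V_c`; again
`W_c* W_c' = 0` for `c ≠ c'`, so `‖∑ W_c‖² = ‖∑ W_c* W_c‖` and
`W_c* W_c = r_c* ψ(|f - b_c|² u_c²) r_c ≤ ρ² r_c* ψ(u_c²) r_c = ρ² V_c* V_c`, so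
`‖∑ W_c* W_c‖ ≤ ρ² ‖∑ V_c* V_c‖ = ρ² ‖∑ V_c‖²`. -/
def S_COLN : Prop := ∀ (X : Type) [TopologicalSpace X] [CompactSpace X] (A : Type) [CStarAlgebra A]
  (ψ : C(X, ℂ) →⋆ₐ[ℂ] A) (ι : Type) [Fintype ι] (u : ι → C(X, ℝ)) (r : ι → A),
  (∀ c c', c ≠ c' → ∀ x, u c x = 0 ∨ u c' x = 0) →
  (∀ c c', c ≠ c' → star (ψ (cr (u c)) * r c) * (ψ (cr (u c')) * r c') = 0) ∧
  ∀ (f : C(X, ℂ)) (b : ι → ℂ) (ρ : ℝ), 0 ≤ ρ → (∀ c x, u c x ≠ 0 → ‖f x - b c‖ ≤ ρ) →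
    ‖ψ f * ∑ c, ψ (cr (u c)) * r c - ∑ c, b c • (ψ (cr (u c)) * r c)‖ ≤
      ρ * ‖∑ c, ψ (cr (u c)) * r c‖

/-- **TX**: the approximate intertwiner.

PROOF. WLOG `ζ ≤ 1`. Apply `BUMP` to `μ(f) = re τ(ψ(cr f)) = re τ(φ(cr f))` (positive, and faithful
since `τ` is faithful and `ψ` injective). `H = ∑ h_a²` (`≤ 1` as the `h_a` are disjoint: `h_a ≠ 0`
implies `h2_a = 1 ≠ 0`). For every `a` apply `Cmp` to `x = ψ(h_a)`, `e = ψ(h1_a)`, `y = φ(h2_a)`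
(`τ(e) = μ(h1_a) < μ(h2_a²) = τ(y* y)`): there is `r_a` with
`‖r_a* φ(h2_a²) r_a - ψ(h_a²)‖ < ζ'`, `N ζ' ≤ ζ²/16`. Put `T = ∑ φ(h2_a) r_a`. By `COLN`
`T* T = ∑ r_a* φ(h2_a²) r_a`, so `‖T* T - ψ(H)‖ ≤ N ζ'`, `‖T‖ ≤ 2`, and
`‖φ(f) T - ∑ f(p_a) V_a‖ ≤ r ‖T‖ ≤ 2 r`, `V_a = φ(h2_a) r_a`. And `T ψ(f) - ∑ f(p_a) V_a =
∑ V_a (ψ(f) - f(p_a))` has norm squared `‖∑ (ψ(f) - f(p_a))* V_a* V_a (ψ(f) - f(p_a))‖ ≤
‖ψ(∑ h_a² |f - f(p_a)|²)‖ + N ζ' (2 ‖f‖)² ≤ r² + (ζ ‖f‖ / 2)²`. -/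
def S_TX : Prop := ∀ (A : Type) [CStarAlgebra A] (τ : A →ₗ[ℂ] ℂ), FTS τ → Cmp τ → ∀ n : ℕ, 1 ≤ n →
  ∀ φ ψ : C(Cube n, ℂ) →⋆ₐ[ℂ] A, Function.Injective φ → Function.Injective ψ →
  (∀ f, τ (φ f) = τ (ψ f)) → ∀ ω κ ζ : ℝ, 0 < ω → 0 < κ → 0 < ζ →
  ∃ (T : A) (H : C(Cube n, ℝ)), (∀ x, 0 ≤ H x ∧ H x ≤ 1) ∧
    (∀ u : C(Cube n, ℝ), (∀ x, 0 ≤ u x ∧ u x ≤ 1) → (∀ x, u x ≠ 0 → H x < 1) →
      (τ (ψ (cr u))).re ≤ κ) ∧
    ‖T‖ ≤ 2 ∧ ‖star T * T - ψ (cr H)‖ ≤ ζ ∧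
    ∀ (f : C(Cube n, ℂ)) (r : ℝ), 0 ≤ r → (∀ x y, dist x y < ω → ‖f x - f y‖ ≤ r) →
      ‖φ f * T - T * ψ f‖ ≤ 3 * r + ζ * ‖f‖

/-- **TW**: the unitary.

PROOF. Let `T`, `H` be as in `TX` for small `ω`, `ζ'` and `w` from `PED A` for `T` and `1/8`:
`w G(T* T) = T G'(T* T)`, `G'(t) = G(t)/√t` (continuous and bounded, as `G` vanishes for `t ≤ 1/8`),
`G ∈ 𝒢`. By `UCFC` (for the finitely many `G`, `G'`, `M = 4`) and `CFX`,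
`‖G(T* T) - ψ(G ∘ H)‖` and `‖G'(T* T) - ψ(G' ∘ H)‖` are small, so `‖w ψ(G∘H) - T ψ(G'∘H)‖ ≤ ζ₁`.
Hence `φ(f) w ψ(G∘H) ≈ φ(f) T ψ(G'∘H) ≈ T ψ(f) ψ(G'∘H) = T ψ(G'∘H) ψ(f) ≈ w ψ(G∘H) ψ(f)` with
error `≤ 2 ‖f‖ ζ₁ + (3 r + ζ' ‖f‖) sup|G'|`, where `r` is small if `ω` is small (uniform continuity
of the finitely many `f`). -/
def S_TW : Prop := ∀ (A : Type) [CStarAlgebra A] (τ : A →ₗ[ℂ] ℂ), FTS τ → Cmp τ → PED A →
  ∀ n : ℕ, 1 ≤ n → ∀ φ ψ : C(Cube n, ℂ) →⋆ₐ[ℂ] A, Function.Injective φ → Function.Injective ψ →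
  (∀ f, τ (φ f) = τ (ψ f)) → ∀ (F : Finset C(Cube n, ℂ)) (𝒢 : Finset C(ℝ, ℝ)),
  (∀ G ∈ 𝒢, ∀ t, t ≤ 1 / 8 → G t = 0) → ∀ ζ κ : ℝ, 0 < ζ → 0 < κ →
  ∃ (w : unitary A) (H : C(Cube n, ℝ)), (∀ x, 0 ≤ H x ∧ H x ≤ 1) ∧
    (∀ u : C(Cube n, ℝ), (∀ x, 0 ≤ u x ∧ u x ≤ 1) → (∀ x, u x ≠ 0 → H x < 1) →
      (τ (ψ (cr u))).re ≤ κ) ∧
    ∀ f ∈ F, ∀ G ∈ 𝒢,
      ‖φ f * ((w : A) * ψ (cr (G.comp H))) - (w : A) * ψ (f * cr (G.comp H))‖ ≤ ζ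

/-- **INT**: the intertwining estimate on the source side.

Here `χ` and `ψ` are homomorphisms, `P = ψ(H)`, `h_a` and `h'_q` are partitions of unity
(`∑ h_a² = 1`) of the cube and of `[0,1]`, `G_q = h'_q(kp₁(t)) kp₃(t)` and
`F_q = G_q (1 - t₀ kp₁)`, `Y_(a,q) = χ(h_a) ψ(G_q ∘ H)`.

PROOF. `V_c* V_c' = 0` for `c ≠ c'`, so with `Z_c = (1 - t₀ ψ(kp₁∘H)) χ(x_l) - (1 - t₀ s_q) p_(a,l)`
(norm `≤ 2`) `‖∑ V_c Z_c‖² = ‖∑ Z_c* V_c* V_c Z_c‖ ≤ ‖∑ (Y_c Z_c)* (Y_c Z_c)‖ + 4 |J| ζ`.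
`Y_c Z_c = χ(h_a) ψ(F_q∘H) χ(x_l) - (1 - t₀ s_q) p_(a,l) χ(h_a) ψ(G_q∘H) = A_c + B_c + E_c`,
`A_c = χ(h_a (x_l - p_(a,l))) ψ(F_q∘H)`, `B_c = p_(a,l) χ(h_a) ψ((t₀ G_q (s_q - kp₁))∘H)`,
`E_c = χ(h_a) (ψ(F_q∘H) χ(x_l) - χ(x_l) ψ(F_q∘H))`, `‖E_c‖ ≤ 2 ζ`.
`∑ A_c* A_c = ∑_q ψ(F_q) χ(∑_a h_a² (x_l - p_(a,l))²) ψ(F_q) ≤ ω² ψ(∑_q F_q²) ≤ ω²`;
`∑ B_c* B_c ≤ ψ(∑_q t₀² G_q² (s_q - kp₁)²) ≤ ω²`; `‖∑ E_c* E_c‖ ≤ 4 |J| ζ²`; and
`(A+B+E)* (A+B+E) ≤ 3 (A* A + B* B + E* E)`. Here `h'_q(s) ≠ 0` implies `|s - s_q| < ω`. -/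
def S_INT : Prop := ∀ (n : ℕ) (A : Type) [CStarAlgebra A] (χ ψ : C(Cube n, ℂ) →⋆ₐ[ℂ] A)
  (H : C(Cube n, ℝ)) (N N' : ℕ) (p : Fin N → Cube n) (h : Fin N → C(Cube n, ℝ))
  (s : Fin N' → unitInterval) (h' : Fin N' → C(unitInterval, ℝ)) (ω t₀ ζ : ℝ) (l : Fin n)
  (G F : Fin N' → C(ℝ, ℝ)) (k1 : C(ℝ, ℝ)) (V : Fin N × Fin N' → A),
  0 < ω → 0 ≤ ζ → ζ ≤ 1 → 0 ≤ t₀ → t₀ ≤ 1 →
  (∀ a x, 0 ≤ h a x ∧ h a x ≤ 1) → (∀ x, ∑ a, h a x ^ 2 = 1) →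
  (∀ a x, h a x ≠ 0 → dist x (p a) < ω) →
  (∀ q x, 0 ≤ h' q x ∧ h' q x ≤ 1) → (∀ x, ∑ q, h' q x ^ 2 = 1) →
  (∀ q x, h' q x ≠ 0 → dist x (s q) < ω) →
  (∀ t, k1 t = kp (1 / 8) 1 t) →
  (∀ q t, ∀ z : unitInterval, (z : ℝ) = k1 t → G q t = h' q z * kp (1 / 8) 3 t) →
  (∀ q t, F q t = G q t * (1 - t₀ * k1 t)) →
  (∀ q, ‖ψ (cr ((F q).comp H)) * χ (co l) - χ (co l) * ψ (cr ((F q).comp H))‖ ≤ 2 * ζ) →
  (∀ c c', c ≠ c' → star (V c) * V c' = 0) →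
  (∀ c, ‖star (V c) * V c - star (χ (cr (h c.1)) * ψ (cr ((G c.2).comp H))) *
    (χ (cr (h c.1)) * ψ (cr ((G c.2).comp H)))‖ ≤ ζ) →
  ‖∑ c : Fin N × Fin N', V c * ((1 - (t₀ : ℂ) • ψ (cr (k1.comp H))) * χ (co l) -
      algebraMap ℂ A (((1 - t₀ * (s c.2 : ℝ)) * (p c.1 l : ℝ) : ℝ) : ℂ))‖ ^ 2 ≤
    6 * ω ^ 2 + 16 * (N * N') * ζ

end Pool.Agent.H252.UQ
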