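import Pool.Agent.H252.UQ.DT
import Pool.Agent.H200.UQ_CFX
import Pool.Agent.H278.UQ_CMP
import Pool.Agent.H51.UQ_FAI
import Pool.Agent.H249.UQ_BUMP
import Pool.Agent.H282.UQ_PTS
import Pool.Agent.H784.UQ_COLN
import Pool.Agent.H665.UQ_TX
import Pool.Agent.H922.UQ_TW
import Pool.Agent.H400.UQ_INT
import Pool.Agent.H707.UQ_UCFC
import Pool.Graph.R_seed8.H923R2.FZ.All
import Pool.Graph.R_pool_sql_team_seeded_63374d34.N194.UN.TT
import Pool.Graph.R_pool_sql_team_seeded_63374d34.N839.UN.Seq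
import Pool.Graph.R_pool_sql_team_seeded_63374d34.N861.UN.ZZ
import Pool.Graph.R_pool_sql_team_seeded_63374d34.N726.UN.Coord

/-!
# Uniqueness of maps `C([0,1]^n) → A` by the trace: assembly
-/

set_option autoImplicit false

noncomputable section

namespace Pool.Agent.H252.UQ

open Pool.Agent.H923R2.FP Pool.Agent.H923R2.FZ Pool.Agent.N300.UN

theorem tw : S_TW := Pool.Agent.H922.UQTW.s_TW
  (Pool.Agent.H665.UQ.s_TX Pool.Agent.H249.UQB.s_BUMP Pool.Agent.H784.UQ.s_COLN)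
  Pool.Agent.H707.UQUCFC.s_UCFC Pool.Agent.H200.UQ.s_CFX

theorem dt : S_DT := t_DT tw Pool.Agent.H282.UQ.s_PTS Pool.Agent.N194.UN.t_POU
  Pool.Agent.H784.UQ.s_COLN Pool.Agent.H400.UQ.s_INT Pool.Agent.H200.UQ.s_CFX

theorem cr' : S_CR := t_CR dt Pool.Agent.N861.UN.t_ZZ Pool.Agent.N839.UN.t_SEQ

/-- the invertible elements are dense: exact unitary polar decomposition above `ε` -/
theorem ped_of_dense (A : Type) [CStarAlgebra A] (h : Dense {x : A | IsUnit x}) : PED A := by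
  refine Pool.Agent.H923R2.FZ.All.r0 A fun b _ => ?_
  obtain ⟨z, hz, hz2⟩ := Metric.dense_iff.1 h b 1 one_pos
  exact ⟨z, hz2, by rw [← dist_eq_norm, dist_comm]; exact hz⟩

/-- the uniqueness theorem -/
theorem uniq (A : Type) [CStarAlgebra A] (hs : IsSimpleCStar A)
    (hsr : Dense {x : A | IsUnit x}) (hsc : StrictComparison A) (τ : A →ₗ[ℂ] ℂ)
    (hτ : IsTracialState τ) (hu : ∀ σ : A → ℂ, TwoQuasitracialState σ → ∀ x, σ x = τ x)
    (n : ℕ) (φ ψ : C(Cube n, ℂ) →⋆ₐ[ℂ] A) (hφ : Function.Injective φ)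
    (hψ : Function.Injective ψ) (heq : ∀ f, τ (φ f) = τ (ψ f)) :
    ApproxUnitarilyEquivalent φ ψ := by
  have hF : FTS τ := Pool.Agent.H51.UQ.s_FAI A τ hs hτ
  have hC : Cmp τ := by
    refine Pool.Agent.H278.UQ_CMP.s_CMP A τ hF fun a b ha hb hab => hsc a b ha hb fun σ hσ => ?_
    have e1 : σ = fun x => τ x := funext fun x => hu σ hσ x
    rw [e1]
    exact hab
  have hP : PED A := ped_of_dense A hsr
  intro F ε hε
  refine Pool.Agent.N726.UN.t_COORD n A ψ φ ?_ F ε hε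
  intro η hη
  rcases Nat.eq_zero_or_pos n with h0 | h0
  · subst h0
    exact ⟨1, fun l => l.elim0⟩
  · exact cr' A τ hF hC hP n h0 ψ φ hψ hφ (fun f => (heq f).symm) η hη

end Pool.Agent.H252.UQ
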