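import Pool.Agent.H252.UQ.Data

/-!
# The approximate data: proof
-/

set_option autoImplicit false

open scoped ComplexConjugate

noncomputable section

namespace Pool.Agent.H252.UQ

open Pool.Agent.H923R2.FP Pool.Agent.H923R2.FZ Pool.Agent.N300.UN
open Pool.Agent.N300.UN.T_CORE0

set_option maxHeartbeats 4000000 in
theorem t_DT (hTW : S_TW) (hPT : S_PTS) (hPU : S_POU) (hCN : S_COLN) (hIN : S_INT)
    (hCF : S_CFX) : S_DT := by
  classical
  intro A _ τ hτ hC hP n hn φ ψ hφ hψ heq m hm δ hδ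
  set δ' : ℝ := min δ 1 with hδ'
  have hδ0 : 0 < δ' := lt_min hδ one_pos
  have hδ1 : δ' ≤ 1 := min_le_right _ _
  have hδ2 : δ' ≤ δ := min_le_left _ _
  set ω : ℝ := δ' / 16 with hω
  have hω0 : 0 < ω := by positivity
  obtain ⟨N, p, h, h01, hsum, hdist, -⟩ := hPU (Cube n) ω hω0
  obtain ⟨N', sp, h', h01', hsum', hdist', -⟩ := hPU unitInterval ω hω0
  set I0 := Fin (2 * m + 1) with hI0
  set J := Fin N × Fin N' with hJ
  set tt : I0 → ℝ := fun i => tc m i.val with htt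
  have htt0 : ∀ i, 0 ≤ tt i ∧ tt i ≤ 1 := fun i => tc_01 m i.val hm (by have := i.2; omega)
  have hsp1 : ∀ (i : I0) (q : Fin N'), 0 ≤ 1 - tt i * (sp q : ℝ) ∧ 1 - tt i * (sp q : ℝ) ≤ 1 := by
    intro i q
    have a1 := htt0 i
    have a2 := (sp q).2
    have a3 : tt i * (sp q : ℝ) ≤ 1 := mul_le_one₀ a1.2 a2.1 a2.2
    have a4 : 0 ≤ tt i * (sp q : ℝ) := mul_nonneg a1.1 a2.1
    constructor <;> linarith
  -- the targets
  set y : I0 × J → Cube n := fun c l => ⟨(1 - tt c.1 * (sp c.2.2 : ℝ)) * (p c.2.1 l : ℝ),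
    mul_nonneg (hsp1 c.1 c.2.2).1 (p c.2.1 l).2.1,
    mul_le_one₀ (hsp1 c.1 c.2.2).2 (p c.2.1 l).2.1 (p c.2.1 l).2.2⟩ with hy
  obtain ⟨g, g01, gne, gdis, gdist⟩ := hPT n hn (I0 × J) y ω hω0
  have hgpos : ∀ c, 0 < (τ (ψ (cr (g c * g c)))).re := by
    intro c
    have e1 : ψ (cr (g c * g c)) = star (ψ (cr (g c))) * ψ (cr (g c)) := by
      rw [← map_star, star_cr, ← map_mul, ← cr_mul]
    rw [e1]
    refine lt_of_le_of_ne (hτ.nonneg _) fun e3 => gne c ?_
    have e4 : ψ (cr (g c)) = 0 := hτ.faith _ e3.symm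
    have e5 : cr (g c) = 0 := hψ (by rw [e4, map_zero])
    ext x
    have e6 := congrArg (fun f : C(Cube n, ℂ) => f x) e5
    have e7 : ((g c x : ℝ) : ℂ) = 0 := e6
    exact_mod_cast e7
  obtain ⟨θ, hθ0, hθ⟩ := exists_min_pos _ hgpos
  set κ : ℝ := θ / 4 with hκ
  have hκ0 : 0 < κ := by positivity
  set c0 : ℝ := (N : ℝ) * N' + 1 with hc0
  have hc00 : 0 < c0 := by positivity
  set ζ : ℝ := δ' ^ 2 / (2048 * c0) with hζ
  have hζ0 : 0 < ζ := by positivity
  have hζc : c0 * ζ = δ' ^ 2 / 2048 := by rw [hζ]; field_simp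
  have hNNζ : (N : ℝ) * N' * ζ ≤ δ' ^ 2 / 2048 := by
    rw [← hζc, hc0]; nlinarith
  have hζδ : ζ ≤ δ' / 2048 := by
    have h1 : ζ ≤ c0 * ζ := by
      have : 1 ≤ c0 := by
        rw [hc0]
        have : (0 : ℝ) ≤ N * N' := by positivity
        linarith
      nlinarith
    rw [hζc] at h1
    have h2 : δ' ^ 2 ≤ δ' := by nlinarith
    linarith
  have hζ1 : ζ ≤ 1 := by linarith
  -- the functions
  set Fs : Finset C(Cube n, ℂ) := Finset.univ.image (fun l : Fin n => co l) with hFs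
  set Gs : Finset C(ℝ, ℝ) := (Finset.univ.image fun r : Fin 3 => 1 - K (r.val + 1)) ∪
    (Finset.univ.image fun z : Fin N' × I0 => Fq (h' z.1) (tt z.2) -
      ContinuousMap.const ℝ (Fq (h' z.1) (tt z.2) 0)) with hGs
  have hGs0 : ∀ G ∈ Gs, ∀ t, t ≤ 1 / 8 → G t = 0 := by
    intro G hG t ht
    rw [hGs, Finset.mem_union, Finset.mem_image, Finset.mem_image] at hG
    rcases hG with ⟨r, -, rfl⟩ | ⟨z, -, rfl⟩
    · have h1 : kp (1 / 8) (r.val + 1) t = 1 := kp_one (by norm_num) _ (by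
        push_cast
        have : (0 : ℝ) ≤ (r.val : ℝ) := Nat.cast_nonneg _
        nlinarith)
      change 1 - kp (1 / 8) (r.val + 1) t = 0
      rw [h1, sub_self]
    · simp only [ContinuousMap.sub_apply, ContinuousMap.const_apply]
      rw [Fq_const _ _ t ht, sub_self]
  obtain ⟨w, H, hH, hmass, hest⟩ := hTW A τ hτ hC hP n hn φ ψ hφ hψ heq Fs Gs hGs0 ζ κ hζ0 hκ0
  set ψ' : C(Cube n, ℂ) →⋆ₐ[ℂ] A :=
    ((Unitary.conjStarAlgAut ℂ A w : A ≃⋆ₐ[ℂ] A) : A →⋆ₐ[ℂ] A).comp ψ with hψ'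
  have hψ'a : ∀ f, ψ' f = (w : A) * ψ f * star (w : A) := fun f => by
    change (Unitary.conjStarAlgAut ℂ A w) (ψ f) = _
    rw [Unitary.conjStarAlgAut_apply]
  have hww : star (w : A) * (w : A) = 1 := Unitary.coe_star_mul_self w
  have hww' : (w : A) * star (w : A) = 1 := Unitary.coe_mul_star_self w
  have hτψ' : ∀ f, τ (ψ' f) = τ (ψ f) := fun f => by
    rw [hψ'a, hτ.comm, ← mul_assoc, hww, one_mul]
  have hcos : ∀ l : Fin n, star (co l) = co l := by
    intro l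
    ext x
    change star ((((x l : ℝ)) : ℂ)) = _
    rw [Complex.star_def, Complex.conj_ofReal]
    rfl
  have hco1 : ∀ (χ : C(Cube n, ℂ) →⋆ₐ[ℂ] A) (l : Fin n), ‖χ (co l)‖ ≤ 1 := by
    intro χ l
    refine (NonUnitalStarAlgHom.norm_apply_le χ (co l)).trans ?_
    refine (ContinuousMap.norm_le _ zero_le_one).2 fun x => ?_
    change ‖(((x l : ℝ)) : ℂ)‖ ≤ 1
    rw [Complex.norm_real, Real.norm_eq_abs, abs_of_nonneg (x l).2.1]
    exact (x l).2.2
  have hsφ : ∀ (χ : C(Cube n, ℂ) →⋆ₐ[ℂ] A) (l : Fin n), star (χ (co l)) = χ (co l) := fun χ l => by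
    rw [← map_star, hcos]
  have hsψ : ∀ f : C(Cube n, ℝ), star (ψ' (cr f)) = ψ' (cr f) := fun f => by
    rw [← map_star, star_cr]
  -- key estimates
  have K1 : ∀ l : Fin n, ∀ G ∈ Gs, ‖(φ (co l) - ψ' (co l)) * ψ' (cr (G.comp H))‖ ≤ ζ := by
    intro l G hG
    have h1 := hest (co l) (Finset.mem_image_of_mem _ (Finset.mem_univ l)) G hG
    have h2 : φ (co l) * ((w : A) * ψ (cr (G.comp H))) - (w : A) * ψ (co l * cr (G.comp H)) =
        (φ (co l) - ψ' (co l)) * ψ' (cr (G.comp H)) * (w : A) := by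
      rw [sub_mul, ← map_mul, hψ'a (cr (G.comp H)), hψ'a (co l * cr (G.comp H)), sub_mul]
      congr 1
      · rw [mul_assoc, mul_assoc _ (star (w : A)) (w : A), hww, mul_one]
      · rw [mul_assoc _ (star (w : A)) (w : A), hww, mul_one]
    rw [h2, CStarRing.norm_mul_coe_unitary] at h1
    exact h1
  have K2 : ∀ l : Fin n, ∀ G ∈ Gs, ‖ψ' (cr (G.comp H)) * (φ (co l) - ψ' (co l))‖ ≤ ζ := by
    intro l G hG
    have h1 := K1 l G hG
    rw [← norm_star, star_mul, hsψ, star_sub, hsφ, hsφ] at h1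
    exact h1
  have Kc : ∀ (f : C(Cube n, ℂ)) (g : C(Cube n, ℂ)), ψ' f * ψ' g = ψ' g * ψ' f := fun f g => by
    rw [← map_mul, ← map_mul, mul_comm]
  have K3 : ∀ l : Fin n, ∀ G ∈ Gs, ‖φ (co l) * ψ' (cr (G.comp H)) -
      ψ' (cr (G.comp H)) * φ (co l)‖ ≤ 2 * ζ := by
    intro l G hG
    have h1 : φ (co l) * ψ' (cr (G.comp H)) - ψ' (cr (G.comp H)) * φ (co l) =
        (φ (co l) - ψ' (co l)) * ψ' (cr (G.comp H)) -
          ψ' (cr (G.comp H)) * (φ (co l) - ψ' (co l)) := by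
      rw [sub_mul, mul_sub, Kc (co l)]
      abel
    rw [h1]
    refine (norm_sub_le _ _).trans ?_
    have := K1 l G hG
    have := K2 l G hG
    linarith
  have hGK : ∀ r : ℕ, 1 ≤ r → r ≤ 3 → (1 - K r) ∈ Gs := by
    intro r h1 h2
    rw [hGs, Finset.mem_union]
    left
    refine Finset.mem_image.2 ⟨⟨r - 1, by omega⟩, Finset.mem_univ _, ?_⟩
    have : r - 1 + 1 = r := by omega
    simp only [this]
  have hGF : ∀ (q : Fin N') (i : I0), (Fq (h' q) (tt i) -
      ContinuousMap.const ℝ (Fq (h' q) (tt i) 0)) ∈ Gs := by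
    intro q i
    rw [hGs, Finset.mem_union]
    right
    exact Finset.mem_image.2 ⟨(q, i), Finset.mem_univ _, rfl⟩
  have hcomp1 : ∀ G : C(ℝ, ℝ), cr ((1 - G).comp H) = 1 - cr (G.comp H) := fun G => by
    ext x; simp
  -- the homomorphisms of the sites
  set χ : I0 → (C(Cube n, ℂ) →⋆ₐ[ℂ] A) := fun i => if i.val ≤ m then φ else ψ' with hχ
  have K4 : ∀ (i : I0) (l : Fin n) (q : Fin N'),
      ‖ψ' (cr ((Fq (h' q) (tt i)).comp H)) * χ i (co l) -
        χ i (co l) * ψ' (cr ((Fq (h' q) (tt i)).comp H))‖ ≤ 2 * ζ := by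
    intro i l q
    by_cases hi : i.val ≤ m
    · have e1 : χ i = φ := if_pos hi
      rw [e1]
      have h1 := K3 l _ (hGF q i)
      set c1 : ℝ := Fq (h' q) (tt i) 0 with hc1
      have e2 : cr ((Fq (h' q) (tt i)).comp H) =
          cr ((Fq (h' q) (tt i) - ContinuousMap.const ℝ c1).comp H) + algebraMap ℂ _ (c1 : ℂ) := by
        ext x; simp
      have e3 : ψ' (cr ((Fq (h' q) (tt i)).comp H)) =
          ψ' (cr ((Fq (h' q) (tt i) - ContinuousMap.const ℝ c1).comp H)) +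
            algebraMap ℂ A (c1 : ℂ) := by
        rw [e2, map_add, AlgHomClass.commutes]
      rw [e3, add_mul, mul_add, Algebra.commutes, add_sub_add_right_eq_sub, norm_sub_rev]
      exact h1
    · have e1 : χ i = ψ' := if_neg hi
      rw [e1, Kc, sub_self, norm_zero]
      positivity
  -- the elements `X₀`, `Y₀`
  set u : I0 × J → C(Cube n, ℝ) := fun c => g c * (1 - (K 4).comp H) with hu
  have hu01 : ∀ c x, 0 ≤ u c x ∧ u c x ≤ 1 := by
    intro c x
    have h1 := g01 c x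
    have h2 := kp_01 (1 / 8) 4 (H x)
    have e1 : u c x = g c x * (1 - kp (1 / 8) 4 (H x)) := rfl
    rw [e1]
    constructor
    · exact mul_nonneg h1.1 (by linarith)
    · exact mul_le_one₀ h1.2 (by linarith) (by linarith)
  have hudis : ∀ c c', c ≠ c' → ∀ x, u c x = 0 ∨ u c' x = 0 := by
    intro c c' hcc x
    have e1 : ∀ c, u c x = g c x * (1 - kp (1 / 8) 4 (H x)) := fun _ => rfl
    rcases gdis c c' hcc x with h1 | h1
    · left; rw [e1, h1, zero_mul]
    · right; rw [e1, h1, zero_mul]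
  have hudist : ∀ c x, u c x ≠ 0 → dist x (y c) < ω := by
    intro c x hx
    refine gdist c x fun h1 => hx ?_
    have e1 : u c x = g c x * (1 - kp (1 / 8) 4 (H x)) := rfl
    rw [e1, h1, zero_mul]
  set eK : A := ψ' (cr ((K 4).comp H)) with heK
  have hPCe : PC eK := by
    refine pc_of eK (ψ' (cr ⟨fun x => √(kp (1 / 8) 4 (H x)), by
      have := kp_cont (1 / 8) 4; fun_prop⟩)) (ψ' (cr ⟨fun x => √(1 - kp (1 / 8) 4 (H x)), by
      have := kp_cont (1 / 8) 4; fun_prop⟩)) ?_ ?_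
    · rw [hsψ, ← map_mul, ← cr_mul, heK]
      congr 2
      ext x
      exact Real.mul_self_sqrt (kp_01 _ _ _).1
    · rw [hsψ, ← map_mul, ← cr_mul, heK]
      have e1 : (1 : A) = ψ' (cr 1) := by rw [cr_one, map_one]
      rw [e1, ← map_sub, ← cr_sub]
      congr 2
      ext x
      refine Real.mul_self_sqrt ?_
      have := (kp_01 (1 / 8) 4 (H x)).2
      linarith
  have hmK : (τ (ψ (cr ((K 4).comp H)))).re ≤ κ := by
    refine hmass _ (fun x => kp_01 _ _ _) fun x hx => ?_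
    by_contra hcon
    push Not at hcon
    apply hx
    change kp (1 / 8) 4 (H x) = 0
    exact kp_zero (by norm_num) 4 (by norm_num; linarith)
  set X0 : I0 × J → A := fun c => ψ' (cr (u c)) with hX0
  set Y0 : I0 × J → A := fun c => χ c.1 (cr (h c.2.1)) * ψ' (cr ((Gq (h' c.2.2)).comp H)) with hY0
  have hK43 : ∀ t, kp (1 / 8) 4 t * kp (1 / 8) 3 t = kp (1 / 8) 3 t := fun t =>
    kp_mul (by norm_num) (by norm_num) t
  have hYe : ∀ c, Y0 c * eK = Y0 c := by
    intro c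
    rw [hY0]
    simp only
    rw [heK, mul_assoc, ← map_mul, ← cr_mul]
    congr 3
    ext x
    change h' c.2.2 ⟨kp (1 / 8) 1 (H x), kp_01 _ _ _⟩ * kp (1 / 8) 3 (H x) *
      kp (1 / 8) 4 (H x) = h' c.2.2 ⟨kp (1 / 8) 1 (H x), kp_01 _ _ _⟩ * kp (1 / 8) 3 (H x)
    rw [mul_assoc, mul_comm (kp (1 / 8) 3 (H x)), hK43]
  have hcmp : ∀ c, ∃ r : A, ‖star (X0 c * r) * (X0 c * r) - star (Y0 c) * Y0 c‖ < ζ := by
    intro c
    refine hC (Y0 c) (X0 c) eK hPCe (hYe c) ?_ ?_ ζ hζ0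
    · exact norm_cr_le ψ' (u c) 1 zero_le_one fun x => by
        rw [abs_of_nonneg (hu01 c x).1]; exact (hu01 c x).2
    · rw [heK, hτψ']
      have e1 : star (X0 c) * X0 c = ψ' (cr (u c * u c)) := by
        rw [hX0]; simp only
        rw [hsψ, ← map_mul, ← cr_mul]
      rw [e1, hτψ']
      have e2 : (τ (ψ (cr (g c * g c - (2 : ℝ) • (K 4).comp H)))).re ≤
          (τ (ψ (cr (u c * u c)))).re := by
        refine tr_cr_mono hτ ψ _ _ fun x => ?_
        change g c x * g c x - 2 * kp (1 / 8) 4 (H x) ≤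
          g c x * (1 - kp (1 / 8) 4 (H x)) * (g c x * (1 - kp (1 / 8) 4 (H x)))
        have h1 := g01 c x
        have h2 := kp_01 (1 / 8) 4 (H x)
        have h3 : g c x * g c x ≤ 1 := mul_le_one₀ h1.2 h1.1 h1.2
        have h4 : 0 ≤ g c x * g c x := mul_nonneg h1.1 h1.1
        have h5 : 0 ≤ kp (1 / 8) 4 (H x) * (1 - g c x * g c x) :=
          mul_nonneg h2.1 (by linarith)
        have h6 : 0 ≤ g c x * g c x * (kp (1 / 8) 4 (H x) * kp (1 / 8) 4 (H x)) :=
          mul_nonneg h4 (mul_nonneg h2.1 h2.1)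
        nlinarith
      have e3 : (τ (ψ (cr (g c * g c - (2 : ℝ) • (K 4).comp H)))).re =
          (τ (ψ (cr (g c * g c)))).re - 2 * (τ (ψ (cr ((K 4).comp H)))).re := by
        have : cr (g c * g c - (2 : ℝ) • (K 4).comp H) =
            cr (g c * g c) - (2 : ℂ) • cr ((K 4).comp H) := by
          ext x; simp
        rw [this, map_sub, map_sub, map_smul, map_smul, Complex.sub_re, smul_eq_mul]
        simp
      have e4 := hθ c
      rw [e3] at e2
      rw [hκ] at hmK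
      linarith
  choose r hr using hcmp
  set V : I0 × J → A := fun c => X0 c * r c with hV
  obtain ⟨hVo, -⟩ := hCN (Cube n) A ψ' (I0 × J) u r hudis
  have hVo' : ∀ c c', c ≠ c' → star (V c) * V c' = 0 := hVo
  set RR : I0 → A := fun i => ∑ c : J, V (i, c) with hRR
  -- the squares
  have hRR0 : ∀ i j, i ≠ j → star (RR i) * RR j = 0 := by
    intro i j hij
    rw [hRR]; simp only
    rw [star_sum, Finset.sum_mul_sum]
    refine Finset.sum_eq_zero fun c _ => Finset.sum_eq_zero fun c' _ => ?_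
    exact hVo' _ _ fun h => hij (Prod.ext_iff.1 h).1
  have hRRs : ∀ i, star (RR i) * RR i = ∑ c : J, star (V (i, c)) * V (i, c) := by
    intro i
    rw [hRR]; simp only
    rw [star_sum, Finset.sum_mul_sum]
    refine Finset.sum_congr rfl fun c _ => ?_
    rw [Finset.sum_eq_single c]
    · intro c' _ hcc
      exact hVo' _ _ fun h => hcc (Prod.ext_iff.1 h).2.symm
    · intro h; exact absurd (Finset.mem_univ _) h
  set kc : A := ψ' (cr ((K 3).comp H)) with hkc
  have hsumh : ∀ χ : C(Cube n, ℂ) →⋆ₐ[ℂ] A, ∑ a, star (χ (cr (h a))) * χ (cr (h a)) = 1 := by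
    intro χ
    have e1 : ∀ a, star (χ (cr (h a))) * χ (cr (h a)) = χ (cr (h a * h a)) := fun a => by
      rw [← map_star, star_cr, ← map_mul, cr_mul]
    rw [Finset.sum_congr rfl fun a _ => e1 a, ← map_sum, ← cr_sum]
    have e2 : ∑ a, h a * h a = 1 := by
      ext x
      have : (∑ a, h a * h a : C(Cube n, ℝ)) x = ∑ a, h a x ^ 2 := by simp [sq]
      rw [this, hsum]; rfl
    rw [e2, cr_one, map_one]
  have hYsum : ∀ i, ∑ c : J, star (Y0 (i, c)) * Y0 (i, c) = kc * kc := by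
    intro i
    have e1 : ∀ c : J, star (Y0 (i, c)) * Y0 (i, c) =
        ψ' (cr ((Gq (h' c.2)).comp H)) * (star (χ i (cr (h c.1))) * χ i (cr (h c.1))) *
          ψ' (cr ((Gq (h' c.2)).comp H)) := by
      intro c
      rw [hY0]; simp only
      rw [star_mul, hsψ]
      simp only [mul_assoc]
    rw [Finset.sum_congr rfl fun c _ => e1 c, Fintype.sum_prod_type_right]
    have e2 : ∀ q : Fin N', ∑ a : Fin N, ψ' (cr ((Gq (h' q)).comp H)) *
        (star (χ i (cr (h a))) * χ i (cr (h a))) * ψ' (cr ((Gq (h' q)).comp H)) =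
        ψ' (cr ((Gq (h' q)).comp H * (Gq (h' q)).comp H)) := by
      intro q
      rw [← Finset.sum_mul, ← Finset.mul_sum, hsumh, mul_one, ← map_mul, ← cr_mul]
    rw [Finset.sum_congr rfl fun q _ => e2 q, ← map_sum, ← cr_sum, hkc, ← map_mul, ← cr_mul]
    congr 2
    ext x
    have e3 : (∑ q, (Gq (h' q)).comp H * (Gq (h' q)).comp H : C(Cube n, ℝ)) x =
        ∑ q, (h' q ⟨kp (1 / 8) 1 (H x), kp_01 _ _ _⟩) ^ 2 * (kp (1 / 8) 3 (H x)) ^ 2 := by
      simp only [ContinuousMap.coe_sum, Finset.sum_apply, ContinuousMap.mul_apply,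
        ContinuousMap.comp_apply]
      refine Finset.sum_congr rfl fun q _ => ?_
      rw [Gq_apply]
      ring
    rw [e3, ← Finset.sum_mul, hsum', one_mul, sq]
    rfl
  have hcardJ : (Fintype.card J : ℝ) = N * N' := by
    have : Fintype.card (Fin N × Fin N') = N * N' := by
      rw [Fintype.card_prod, Fintype.card_fin, Fintype.card_fin]
    rw [← Nat.cast_mul, ← this]
  have hRRk : ∀ i, ‖star (RR i) * RR i - kc * kc‖ ≤ δ' ^ 2 / 2048 := by
    intro i
    rw [hRRs, ← hYsum i, ← Finset.sum_sub_distrib]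
    calc ‖∑ c : J, (star (V (i, c)) * V (i, c) - star (Y0 (i, c)) * Y0 (i, c))‖ ≤
          ∑ c : J, ‖star (V (i, c)) * V (i, c) - star (Y0 (i, c)) * Y0 (i, c)‖ :=
          norm_sum_le _ _
      _ ≤ ∑ _c : J, ζ := Finset.sum_le_sum fun c _ => (hr (i, c)).le
      _ = N * N' * ζ := by rw [Finset.sum_const, Finset.card_univ, nsmul_eq_mul, hcardJ]
      _ ≤ δ' ^ 2 / 2048 := hNNζ
  have hkcn : ‖kc‖ ≤ 1 := norm_cr_le ψ' _ 1 zero_le_one fun x => by
    change |kp (1 / 8) 3 (H x)| ≤ 1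
    rw [abs_of_nonneg (kp_01 _ _ _).1]; exact (kp_01 _ _ _).2
  have hRRn : ∀ i, ‖RR i‖ ≤ 2 := by
    intro i
    have e1 := hRRk i
    have e2 : ‖star (RR i) * RR i‖ ≤ δ' ^ 2 / 2048 + 1 := by
      calc ‖star (RR i) * RR i‖ = ‖(star (RR i) * RR i - kc * kc) + kc * kc‖ := by
            rw [sub_add_cancel]
        _ ≤ ‖star (RR i) * RR i - kc * kc‖ + ‖kc * kc‖ := norm_add_le _ _
        _ ≤ δ' ^ 2 / 2048 + 1 := by
            gcongr
            exact (norm_mul_le _ _).trans (mul_le_one₀ hkcn (norm_nonneg _) hkcn)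
    rw [CStarRing.norm_star_mul_self] at e2
    nlinarith [norm_nonneg (RR i)]
  -- intertwining
  have hfull : ∀ (i : I0) (l : Fin n), ‖φ (co l) * RR i - RR i *
      ((1 - (tt i : ℂ) • ψ' (cr ((K 1).comp H))) * χ i (co l))‖ ≤ δ' := by
    intro i l
    -- first term
    have hq : ψ' (cr ((1 - K 3).comp H)) * RR i = RR i := by
      rw [hRR]; simp only
      rw [Finset.mul_sum]
      refine Finset.sum_congr rfl fun c _ => ?_
      rw [hV]; simp only
      rw [hX0]; simp only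
      rw [← mul_assoc, ← map_mul, ← cr_mul]
      congr 3
      ext x
      change (1 - kp (1 / 8) 3 (H x)) * (g (i, c) x * (1 - kp (1 / 8) 4 (H x))) =
        g (i, c) x * (1 - kp (1 / 8) 4 (H x))
      have := hK43 (H x)
      linear_combination g (i, c) x * (this)
    have t1 : ‖(φ (co l) - ψ' (co l)) * RR i‖ ≤ 2 * ζ := by
      rw [← hq, ← mul_assoc]
      refine (norm_mul_le _ _).trans ?_
      have h1 := K1 l _ (hGK 3 (by norm_num) le_rfl)
      have h2 := hRRn i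
      calc ‖(φ (co l) - ψ' (co l)) * ψ' (cr ((1 - K 3).comp H))‖ * ‖RR i‖ ≤ ζ * 2 := by gcongr
        _ = 2 * ζ := by ring
    -- second term
    have t2 : ‖ψ' (co l) * RR i - ∑ c : J, ((y (i, c) l : ℝ) : ℂ) • V (i, c)‖ ≤ ω * 2 := by
      obtain ⟨-, h2⟩ := hCN (Cube n) A ψ' J (fun c => u (i, c)) (fun c => r (i, c))
        (fun c c' hcc => hudis _ _ fun h => hcc (Prod.ext_iff.1 h).2)
      have h3 := h2 (co l) (fun c => ((y (i, c) l : ℝ) : ℂ)) ω hω0.le (fun c x hx => by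
        have h4 := hudist (i, c) x hx
        have h5 := (dist_le_pi_dist x (y (i, c)) l).trans h4.le
        change ‖(((x l : ℝ)) : ℂ) - ((y (i, c) l : ℝ) : ℂ)‖ ≤ ω
        rw [← Complex.ofReal_sub, Complex.norm_real]
        exact h5)
      refine h3.trans ?_
      have h6 := hRRn i
      gcongr
    -- third term
    have t3 : ‖∑ c : J, V (i, c) * ((1 - (tt i : ℂ) • ψ' (cr ((K 1).comp H))) * χ i (co l) -
        algebraMap ℂ A (((1 - tt i * (sp c.2 : ℝ)) * (p c.1 l : ℝ) : ℝ) : ℂ))‖ ≤ 3 * ω := by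
      have h1 := hIN n A (χ i) ψ' H N N' p h sp h' ω (tt i) ζ l (fun q => Gq (h' q))
        (fun q => Fq (h' q) (tt i)) (K 1) (fun c => V (i, c)) hω0 hζ0.le hζ1 (htt0 i).1 (htt0 i).2
        h01 hsum hdist h01' hsum' hdist' (fun t => rfl)
        (fun q t z hz => by
          rw [Gq_apply]
          congr 2
          exact Subtype.ext hz.symm)
        (fun q t => Fq_apply _ _ _)
        (fun q => K4 i l q)
        (fun c c' hcc => hVo' _ _ fun h => hcc (Prod.ext_iff.1 h).2)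
        (fun c => (hr (i, c)).le)
      have h2 : 6 * ω ^ 2 + 16 * (N * N') * ζ ≤ (3 * ω) ^ 2 := by
        have : 16 * ((N : ℝ) * N') * ζ ≤ δ' ^ 2 / 128 := by nlinarith
        rw [hω] at *
        nlinarith
      exact (sq_le_sq₀ (norm_nonneg _) (by positivity)).1 (h1.trans h2)
    have e1 : φ (co l) * RR i - RR i * ((1 - (tt i : ℂ) • ψ' (cr ((K 1).comp H))) * χ i (co l)) =
        (φ (co l) - ψ' (co l)) * RR i +
        (ψ' (co l) * RR i - ∑ c : J, ((y (i, c) l : ℝ) : ℂ) • V (i, c)) -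
        ∑ c : J, V (i, c) * ((1 - (tt i : ℂ) • ψ' (cr ((K 1).comp H))) * χ i (co l) -
        algebraMap ℂ A (((1 - tt i * (sp c.2 : ℝ)) * (p c.1 l : ℝ) : ℝ) : ℂ)) := by
      have e2 : ∀ c : J, V (i, c) * ((1 - (tt i : ℂ) • ψ' (cr ((K 1).comp H))) * χ i (co l) -
          algebraMap ℂ A (((1 - tt i * (sp c.2 : ℝ)) * (p c.1 l : ℝ) : ℝ) : ℂ)) =
          V (i, c) * ((1 - (tt i : ℂ) • ψ' (cr ((K 1).comp H))) * χ i (co l)) -
            ((y (i, c) l : ℝ) : ℂ) • V (i, c) := by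
        intro c
        rw [mul_sub, Algebra.algebraMap_eq_smul_one, mul_smul_comm, mul_one]
      have e3 : ∑ c : J, V (i, c) * ((1 - (tt i : ℂ) • ψ' (cr ((K 1).comp H))) * χ i (co l)) =
          RR i * ((1 - (tt i : ℂ) • ψ' (cr ((K 1).comp H))) * χ i (co l)) := by
        rw [hRR]; simp only
        rw [Finset.sum_mul]
      rw [Finset.sum_congr rfl fun c _ => e2 c, Finset.sum_sub_distrib, e3, sub_mul (φ (co l))]
      abel
    rw [e1]
    refine (norm_sub_le _ _).trans ?_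
    refine (add_le_add (norm_add_le _ _) le_rfl).trans ?_
    rw [hω] at *
    linarith
  -- the output
  have hkpP : ∀ r : ℕ, cfc (kp (1 / 8) r) (ψ' (cr H)) = ψ' (cr ((K r).comp H)) := fun r =>
    hCF _ A ψ' H (K r)
  obtain ⟨Rk, hRk, hRk0⟩ : ∃ Rk : ℕ → A, (∀ (i : ℕ) (hi : i < 2 * m + 1),
      Rk i = RR ⟨i, hi⟩) ∧ (∀ i, ¬ i < 2 * m + 1 → Rk i = 0) :=
    ⟨fun i => if hi : i < 2 * m + 1 then RR ⟨i, hi⟩ else 0,
      fun i hi => by simp only [dif_pos hi], fun i hi => by simp only [dif_neg hi]⟩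
  have hψc : ∀ l, (w : A) * ψ (co l) * star (w : A) = ψ' (co l) := fun l => (hψ'a _).symm
  have h1K : ∀ r, (1 : A) - ψ' (cr ((K r).comp H)) = ψ' (cr ((1 - K r).comp H)) := fun r => by
    rw [hcomp1, map_sub, map_one]
  refine ⟨w, ψ' (cr H), 1 / 8, Rk, by norm_num, hsψ H, ?_, ?_, ?_, ?_, ?_, ?_, ?_⟩
  · refine (norm_cr_le ψ' H 1 zero_le_one fun x => ?_).trans (by norm_num)
    rw [abs_of_nonneg (hH x).1]; exact (hH x).2
  · intro i
    by_cases hi : i < 2 * m + 1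
    · rw [hRk i hi]; exact hRRn _
    · rw [hRk0 i hi, norm_zero]; norm_num
  · intro l r hr
    have h1 : 1 ≤ r := by rcases hr with rfl | rfl | rfl <;> norm_num
    have h2 : r ≤ 3 := by rcases hr with rfl | rfl | rfl <;> norm_num
    rw [hkpP, hψc]
    refine ⟨?_, ?_⟩
    · have h3 := K3 l _ (hGK r h1 h2)
      rw [← h1K, mul_sub, sub_mul, mul_one, one_mul, sub_sub_sub_cancel_left, norm_sub_rev] at h3
      refine h3.trans ?_
      linarith
    · rw [Kc, sub_self, norm_zero]; exact hδ.le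
  · intro l
    rw [hkpP, hψc, h1K]
    exact (K2 l _ (hGK 1 le_rfl (by norm_num))).trans (by linarith)
  · intro i hi1 hi2
    have hi3 : i < 2 * m + 1 := by omega
    rw [hRk i hi3, hkpP]
    have : ψ' (cr ((K 3).comp H)) * RR ⟨i, hi3⟩ = 0 := by
      rw [hRR]; simp only
      rw [Finset.mul_sum]
      refine Finset.sum_eq_zero fun c _ => ?_
      rw [hV]; simp only
      rw [hX0]; simp only
      rw [← mul_assoc, ← map_mul, ← cr_mul]
      have e1 : (K 3).comp H * u (⟨i, hi3⟩, c) = 0 := by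
        ext x
        change kp (1 / 8) 3 (H x) * (g (⟨i, hi3⟩, c) x * (1 - kp (1 / 8) 4 (H x))) = 0
        have := hK43 (H x)
        linear_combination -(g (⟨i, hi3⟩, c) x) * this
      rw [e1, cr_zero, map_zero, zero_mul]
    rw [this, norm_zero]; exact hδ.le
  · intro i j hi1 hi2 hj1 hj2
    have hi3 : i < 2 * m + 1 := by omega
    have hj3 : j < 2 * m + 1 := by omega
    rw [hRk i hi3, hRk j hj3, hkpP]
    by_cases hij : i = j
    · subst hij
      rw [if_pos rfl]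
      refine (hRRk _).trans ?_
      have : δ' ^ 2 ≤ δ' := by nlinarith
      linarith
    · rw [if_neg hij, sub_zero, hRR0 _ _ fun h => hij (Fin.mk.inj_iff.1 h), norm_zero]
      exact hδ.le
  · intro i l hi1 hi2
    have hi3 : i < 2 * m + 1 := by omega
    have h3 := hfull ⟨i, hi3⟩ l
    rw [hRk i hi3, hkpP, hψc]
    have e1 : (1 - ((tt ⟨i, hi3⟩ : ℝ) : ℂ) • ψ' (cr ((K 1).comp H))) * χ ⟨i, hi3⟩ (co l) =
        site m (ψ' (cr ((K 1).comp H))) (φ (co l)) (ψ' (co l)) i := by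
      rw [site_eq]
      congr 1
      simp only [hχ, bs]
      split_ifs <;> rfl
    rw [← e1]
    exact h3.trans hδ2

end Pool.Agent.H252.UQ
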