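import Pool.Agent.H252.UQ.Core

/-!
# The approximate data
-/

set_option autoImplicit false

open scoped ComplexConjugate

noncomputable section

namespace Pool.Agent.H252.UQ

open Pool.Agent.H923R2.FP Pool.Agent.H923R2.FZ Pool.Agent.N300.UN
open Pool.Agent.N300.UN.T_CORE0

theorem exists_min_pos {ι : Type} [Fintype ι] (f : ι → ℝ) (h : ∀ i, 0 < f i) :
    ∃ θ : ℝ, 0 < θ ∧ ∀ i, θ ≤ f i := by
  by_cases hι : Nonempty ι
  · obtain ⟨i, hi⟩ := Finite.exists_min f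
    exact ⟨f i, h i, hi⟩
  · exact ⟨1, one_pos, fun i => absurd ⟨i⟩ hι⟩

theorem tc_01 (m i : ℕ) (hm : 1 ≤ m) (hi : i ≤ 2 * m) : 0 ≤ tc m i ∧ tc m i ≤ 1 := by
  have hm0 : (0 : ℝ) < m := by exact_mod_cast hm
  have hi2 : (i : ℝ) ≤ 2 * m := by exact_mod_cast hi
  unfold tc
  split_ifs with h
  · have hi3 : (i : ℝ) ≤ m := by exact_mod_cast h
    exact ⟨by positivity, by rw [div_le_one hm0]; exact hi3⟩
  · have hi3 : (m : ℝ) ≤ i := by exact_mod_cast (not_le.1 h).le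
    exact ⟨div_nonneg (by linarith) hm0.le, by rw [div_le_one hm0]; linarith⟩

section cr

variable {X : Type} [TopologicalSpace X]

theorem cr_mul (f g : C(X, ℝ)) : cr (f * g) = cr f * cr g := by
  ext x; simp

theorem cr_add (f g : C(X, ℝ)) : cr (f + g) = cr f + cr g := by
  ext x; simp

theorem cr_sub (f g : C(X, ℝ)) : cr (f - g) = cr f - cr g := by
  ext x; simp

theorem cr_one : cr (1 : C(X, ℝ)) = 1 := by
  ext x; simp

theorem cr_zero : cr (0 : C(X, ℝ)) = 0 := by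
  ext x; simp

theorem star_cr (f : C(X, ℝ)) : star (cr f) = cr f := by
  ext x
  simp

theorem cr_sum {ι : Type} (s : Finset ι) (f : ι → C(X, ℝ)) :
    cr (∑ i ∈ s, f i) = ∑ i ∈ s, cr (f i) := by
  classical
  induction s using Finset.induction_on with
  | empty => simp [cr_zero]
  | insert a s ha ih => rw [Finset.sum_insert ha, Finset.sum_insert ha, cr_add, ih]

end cr

section tr

variable {X : Type} [TopologicalSpace X] [CompactSpace X] {A : Type} [CStarAlgebra A]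
  {τ : A →ₗ[ℂ] ℂ}

theorem tr_cr_nonneg (hτ : FTS τ) (ψ : C(X, ℂ) →⋆ₐ[ℂ] A) (f : C(X, ℝ)) (hf : ∀ x, 0 ≤ f x) :
    0 ≤ (τ (ψ (cr f))).re := by
  set g : C(X, ℝ) := ⟨fun x => √(f x), by fun_prop⟩ with hg
  have h1 : f = g * g := by
    ext x
    exact (Real.mul_self_sqrt (hf x)).symm
  have h2 : ψ (cr f) = star (ψ (cr g)) * ψ (cr g) := by
    rw [← map_star, star_cr, ← map_mul, ← cr_mul, ← h1]
  rw [h2]
  exact hτ.nonneg _

theorem tr_cr_mono (hτ : FTS τ) (ψ : C(X, ℂ) →⋆ₐ[ℂ] A) (f g : C(X, ℝ)) (hf : ∀ x, f x ≤ g x) :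
    (τ (ψ (cr f))).re ≤ (τ (ψ (cr g))).re := by
  have h1 := tr_cr_nonneg hτ ψ (g - f) fun x => by simpa using hf x
  rw [cr_sub, map_sub, map_sub, Complex.sub_re] at h1
  linarith

theorem norm_cr_le (ψ : C(X, ℂ) →⋆ₐ[ℂ] A) (f : C(X, ℝ)) (C : ℝ) (hC : 0 ≤ C)
    (hf : ∀ x, |f x| ≤ C) : ‖ψ (cr f)‖ ≤ C := by
  refine (NonUnitalStarAlgHom.norm_apply_le ψ _).trans ?_
  refine (ContinuousMap.norm_le _ hC).2 fun x => ?_
  rw [cr_apply, Complex.norm_real, Real.norm_eq_abs]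
  exact hf x

end tr

/-- the cutoff as a continuous function -/
def K (r : ℕ) : C(ℝ, ℝ) := ⟨kp (1 / 8) r, kp_cont _ _⟩

theorem K_apply (r : ℕ) (t : ℝ) : K r t = kp (1 / 8) r t := rfl

/-- `h'(kp₁(t)) kp₃(t)` -/
def Gq (h' : C(unitInterval, ℝ)) : C(ℝ, ℝ) :=
  ⟨fun t => h' ⟨kp (1 / 8) 1 t, kp_01 _ _ _⟩ * kp (1 / 8) 3 t, by
    have h1 := kp_cont (1 / 8) 1
    have h3 := kp_cont (1 / 8) 3
    have h2 : Continuous fun t : ℝ => (⟨kp (1 / 8) 1 t, kp_01 _ _ _⟩ : unitInterval) :=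
      h1.subtype_mk _
    exact (h'.continuous.comp h2).mul h3⟩

theorem Gq_apply (h' : C(unitInterval, ℝ)) (t : ℝ) :
    Gq h' t = h' ⟨kp (1 / 8) 1 t, kp_01 _ _ _⟩ * kp (1 / 8) 3 t := rfl

/-- `G_q (1 - t₀ kp₁)` -/
def Fq (h' : C(unitInterval, ℝ)) (t₀ : ℝ) : C(ℝ, ℝ) := Gq h' * (1 - t₀ • K 1)

theorem Fq_apply (h' : C(unitInterval, ℝ)) (t₀ t : ℝ) :
    Fq h' t₀ t = Gq h' t * (1 - t₀ * kp (1 / 8) 1 t) := by
  simp [Fq, K_apply]

theorem Fq_const (h' : C(unitInterval, ℝ)) (t₀ t : ℝ) (ht : t ≤ 1 / 8) :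
    Fq h' t₀ t = Fq h' t₀ 0 := by
  have h1 : ∀ s : ℝ, s ≤ 1 / 8 → kp (1 / 8) 1 s = 1 := fun s hs =>
    kp_one (by norm_num) 1 (by simpa using hs)
  have h3 : ∀ s : ℝ, s ≤ 1 / 8 → kp (1 / 8) 3 s = 1 := fun s hs =>
    kp_one (by norm_num) 3 (by norm_num at hs ⊢; linarith)
  have h0 : (0 : ℝ) ≤ 1 / 8 := by norm_num
  rw [Fq_apply, Fq_apply, Gq_apply, Gq_apply]
  simp only [h1 t ht, h1 0 h0, h3 t ht, h3 0 h0]

end Pool.Agent.H252.UQ
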